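import Mathlib

namespace Pool.Agent.H.MP_1d6ef7_nt

open Real Polynomial MeasureTheory Set

/-- decay class -/
def K (c : ℝ) (G : ℝ → ℝ) : Prop :=
  Continuous G ∧ ∃ D : ℝ, 0 ≤ D ∧ ∀ t : ℝ, |G t - c| ≤ D * exp t ∧ |G t| ≤ D * exp (-t)

/-- vanishing moments -/
def Z (G : ℝ → ℝ) (m : ℕ) : Prop :=
  ∀ P : ℝ[X], P.degree < m → ∫ t : ℝ, P.eval t * G t = 0

lemma K_step {c : ℝ} {G : ℝ → ℝ} (h : K c G) (a : ℝ) : K 0 (fun t => G (t + a) - G t) := by
  obtain ⟨hc, D, hD, hb⟩ := h
  refine ⟨by fun_prop, D * (exp a + exp (-a) + 1), by positivity, fun t => ?_⟩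
  have h1 := hb t
  have h2 := hb (t + a)
  have e1 : exp (t + a) = exp t * exp a := exp_add _ _
  have e2 : exp (-(t + a)) = exp (-t) * exp (-a) := by rw [← exp_add]; ring_nf
  have p1 := exp_pos t
  have p2 := exp_pos (-t)
  have p3 := exp_pos a
  have p4 := exp_pos (-a)
  constructor
  · have : G (t + a) - G t - 0 = (G (t + a) - c) - (G t - c) := by ring
    rw [this]
    have := abs_sub (G (t + a) - c) (G t - c)
    have q : 0 ≤ D * exp t * exp (-a) := by positivity
    rw [e1] at h2
    nlinarith [h1.1, h2.1]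
  · have := abs_sub (G (t + a)) (G t)
    have q : 0 ≤ D * exp (-t) * exp a := by positivity
    rw [e2] at h2
    nlinarith [h1.2, h2.2]

lemma poly_bd (P : ℝ[X]) : ∃ D : ℝ, 0 ≤ D ∧ ∀ t : ℝ, |P.eval t| ≤ D * exp (|t| / 2) := by
  induction P using Polynomial.induction_on' with
  | add p q hp hq =>
    obtain ⟨a, ha, h1⟩ := hp
    obtain ⟨b, hb, h2⟩ := hq
    refine ⟨a + b, by positivity, fun t => ?_⟩
    rw [eval_add]
    have := abs_add_le (p.eval t) (q.eval t)
    nlinarith [h1 t, h2 t]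
  | monomial n a =>
    refine ⟨|a| * (2 ^ n * n.factorial), by positivity, fun t => ?_⟩
    rw [eval_monomial, abs_mul, abs_pow, mul_assoc]
    refine mul_le_mul_of_nonneg_left ?_ (abs_nonneg a)
    have h := Real.pow_div_factorial_le_exp (|t| / 2) (by positivity) n
    have hf : (0 : ℝ) < n.factorial := by exact_mod_cast n.factorial_pos
    rw [div_le_iff₀ hf, div_pow, div_le_iff₀ (by positivity)] at h
    nlinarith

lemma int_exp : Integrable (fun t : ℝ => exp (-(|t| / 2))) := by
  rw [← integrableOn_univ, ← Iic_union_Ioi (a := (0 : ℝ))]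
  refine IntegrableOn.union ?_ ?_
  · refine (integrableOn_exp_mul_Iic (a := 1 / 2) (by norm_num) 0).congr_fun ?_ measurableSet_Iic
    intro t ht
    have : t ≤ 0 := ht
    simp only [abs_of_nonpos this]
    congr 1; ring
  · refine (integrableOn_exp_mul_Ioi (a := -1 / 2) (by norm_num) 0).congr_fun ?_ measurableSet_Ioi
    intro t ht
    have : 0 < t := ht
    simp only [abs_of_pos this]
    congr 1; ring

lemma K_int {G : ℝ → ℝ} (h : K 0 G) (P : ℝ[X]) : Integrable (fun t : ℝ => P.eval t * G t) := by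
  obtain ⟨hc, D, hD, hb⟩ := h
  obtain ⟨E, hE, hP⟩ := poly_bd P
  refine Integrable.mono' (int_exp.const_mul (E * D)) ?_ (Filter.Eventually.of_forall fun t => ?_)
  · exact (P.continuous.mul hc).aestronglyMeasurable
  · have hG : |G t| ≤ D * exp (-|t|) := by
      rcases le_total 0 t with ht | ht
      · rw [abs_of_nonneg ht]; exact (hb t).2
      · rw [abs_of_nonpos ht, neg_neg]; simpa using (hb t).1
    rw [Real.norm_eq_abs, abs_mul]
    calc |P.eval t| * |G t| ≤ (E * exp (|t| / 2)) * (D * exp (-|t|)) :=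
          mul_le_mul (hP t) hG (abs_nonneg _) (by positivity)
      _ = E * D * (exp (|t| / 2) * exp (-|t|)) := by ring
      _ = _ := by rw [← exp_add]; congr 2; ring

lemma Z_zero (G : ℝ → ℝ) : Z G 0 := by
  intro P hP
  have : P = 0 := by
    by_contra h
    rw [degree_eq_natDegree h] at hP
    exact absurd hP (by exact_mod_cast Nat.not_lt_zero _)
  simp [this]

lemma Z_step {G : ℝ → ℝ} (h : K 0 G) {m : ℕ} (hz : Z G m) (a : ℝ) :
    Z (fun t => G (t + a) - G t) (m + 1) := by
  intro P hP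
  by_cases h0 : P = 0
  · simp [h0]
  have i1 := K_int h P
  have i2 := K_int h (taylor (-a) P)
  have e : ∫ t : ℝ, P.eval t * G (t + a) = ∫ t : ℝ, (taylor (-a) P).eval t * G t := by
    rw [← integral_add_right_eq_self (fun t : ℝ => (taylor (-a) P).eval t * G t) a]
    simp [taylor_eval]
  have i3 : Integrable (fun t : ℝ => P.eval t * G (t + a)) := by
    have := i2.comp_add_right a
    simpa [taylor_eval] using this
  have hd : (taylor (-a) P - P).degree < m := by
    have h1 : (taylor (-a) P - P).degree < (taylor (-a) P).degree :=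
      degree_sub_lt (degree_taylor _ _) (by simpa using h0) (leadingCoeff_taylor _ _)
    rw [degree_taylor] at h1
    rw [degree_eq_natDegree h0] at h1 hP
    have : P.natDegree ≤ m := by
      have : P.natDegree < m + 1 := by exact_mod_cast hP
      omega
    exact h1.trans_le (by exact_mod_cast this)
  have := hz _ hd
  simp only [eval_sub, sub_mul] at this
  simp only [mul_sub]
  rw [integral_sub i3 i1, e]
  rw [integral_sub i2 i1] at this
  exact this

open Classical in
lemma sign_poly (φ : ℝ → ℝ) (hc : Continuous φ) (η : ℝ) (hη : η ≠ 0)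
    (hφ : ∀ t u : ℝ, 0 ≤ η * (t - u) * (φ t - φ u)) (d : ℕ) :
    ∀ Q : ℝ[X], Q ≠ 0 → Q.natDegree = d → ∃ P : ℝ[X], P ≠ 0 ∧
      P.natDegree ≤ (Q.roots.filter (· ∈ range φ)).card ∧ ∀ t : ℝ, 0 ≤ P.eval t * Q.eval (φ t) := by
  induction d using Nat.strong_induction_on with
  | _ d ih =>
    intro Q hQ hd
    by_cases hr : ∃ u, Q.eval (φ u) = 0
    · obtain ⟨u, hu⟩ := hr
      obtain ⟨Q1, hQ1⟩ := dvd_iff_isRoot.2 hu
      have hQ10 : Q1 ≠ 0 := by rintro rfl; simp at hQ1; exact hQ hQ1
      have hdeg : Q1.natDegree < d := by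
        rw [← hd, hQ1, natDegree_mul (X_sub_C_ne_zero _) hQ10, natDegree_X_sub_C]; omega
      obtain ⟨P, hP0, hPd, hP⟩ := ih _ hdeg Q1 hQ10 rfl
      refine ⟨C η * (X - C u) * P, mul_ne_zero (mul_ne_zero (by simpa using hη) (X_sub_C_ne_zero _)) hP0, ?_, fun t => ?_⟩
      · rw [hQ1, roots_mul (hQ1 ▸ hQ), roots_X_sub_C, Multiset.filter_add, Multiset.card_add,
          Multiset.filter_singleton, if_pos (mem_range_self u),
          natDegree_mul (mul_ne_zero (by simpa using hη) (X_sub_C_ne_zero _)) hP0,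
          natDegree_C_mul hη, natDegree_X_sub_C]
        simp only [Multiset.card_singleton]; omega
      · rw [hQ1]
        simp only [eval_mul, eval_sub, eval_X, eval_C]
        have := mul_nonneg (hφ t u) (hP t)
        nlinarith
    · push Not at hr
      refine ⟨C (Q.eval (φ 0)), by simpa using hr 0, by simp, fun t => ?_⟩
      rw [eval_C]
      by_contra hn
      push Not at hn
      have hcc : Continuous fun t => Q.eval (φ 0) * Q.eval (φ t) := by
        have := Q.continuous.comp hc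
        exact continuous_const.mul this
      have h0 : 0 ≤ Q.eval (φ 0) * Q.eval (φ 0) := mul_self_nonneg _
      obtain ⟨v, hv⟩ := intermediate_value_univ t 0 hcc ⟨hn.le, h0⟩
      exact (mul_ne_zero (hr 0) (hr v)) hv

open Classical in
lemma count (φ : ℝ → ℝ) (hc : Continuous φ) (hi : Function.Injective φ) (η : ℝ) (hη : η ≠ 0)
    (hφ : ∀ t u : ℝ, 0 ≤ η * (t - u) * (φ t - φ u)) (Q : ℝ[X]) (hQ : Q ≠ 0)
    (G w : ℝ → ℝ) (ε : ℝ) (hw : ∀ t, 0 < ε * w t) (hG : ∀ t, G t = w t * Q.eval (φ t))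
    (hK : K 0 G) {m : ℕ} (hZ : Z G m) : m ≤ (Q.roots.filter (· ∈ range φ)).card := by
  by_contra hlt
  push Not at hlt
  obtain ⟨P, hP0, hPd, hP⟩ := sign_poly φ hc η hη hφ _ Q hQ rfl
  have hε : ε ≠ 0 := by rintro rfl; simpa using hw 0
  have hz := hZ (C ε * P) (by
    rw [degree_C_mul hε, degree_eq_natDegree hP0]; exact_mod_cast hPd.trans_lt hlt)
  have hnn : 0 ≤ fun t : ℝ => (C ε * P).eval t * G t := by
    intro t
    simp only [eval_mul, eval_C, hG, Pi.zero_apply]
    have := mul_nonneg (hw t).le (hP t)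
    nlinarith
  rw [integral_eq_zero_iff_of_nonneg hnn (K_int hK _)] at hz
  have hcont : Continuous fun t : ℝ => (C ε * P).eval t * G t := (C ε * P).continuous.mul hK.1
  rw [hcont.ae_eq_iff_eq volume continuous_zero] at hz
  have hfin : (univ : Set ℝ).Finite := by
    have f1 : {t : ℝ | P.eval t = 0}.Finite := P.finite_setOf_isRoot hP0
    have f2 : (φ ⁻¹' {x : ℝ | Q.eval x = 0}).Finite :=
      (Q.finite_setOf_isRoot hQ).preimage hi.injOn
    refine (f1.union f2).subset fun t _ => ?_
    have := congrFun hz t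
    simp only [eval_mul, eval_C, hG, Pi.zero_apply] at this
    have hwt : w t ≠ 0 := by rintro h; simpa [h] using hw t
    simp only [mul_eq_zero, hε, hwt, false_or] at this
    exact this
  exact infinite_univ hfin

end Pool.Agent.H.MP_1d6ef7_nt
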