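import Pool.Agent.H.MP_1d6ef7_nt.A

namespace Pool.Agent.H.MP_1d6ef7_nt

open Real Polynomial MeasureTheory Set

noncomputable def ph (ε t : ℝ) : ℝ := ε * exp (-exp t)

noncomputable def GG (n : ℕ) (ε t : ℝ) : ℝ :=
  (exp t * ph ε t / (cyclotomic n ℝ).eval (ph ε t)) * (derivative (cyclotomic n ℝ)).eval (ph ε t)

lemma cyc_ne {n : ℕ} (hn : 0 < n) {x : ℝ} (hx : |x| < 1) : (cyclotomic n ℝ).eval x ≠ 0 := by
  intro h
  obtain ⟨Q, hQ⟩ := cyclotomic.dvd_X_pow_sub_one n ℝ
  have := congrArg (eval x) hQ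
  simp only [eval_sub, eval_pow, eval_X, eval_one, eval_mul, h, zero_mul] at this
  have h1 : |x ^ n| < 1 := by rw [abs_pow]; exact pow_lt_one₀ (abs_nonneg x) hx hn.ne'
  have : x ^ n = 1 := by linarith
  rw [this] at h1; simp at h1

lemma ex_lt (t : ℝ) : exp (-exp t) < 1 := by
  rw [exp_lt_one_iff]; have := exp_pos t; linarith

lemma ph_abs {ε : ℝ} (hε : ε = 1 ∨ ε = -1) (t : ℝ) : |ph ε t| < 1 := by
  have := ex_lt t
  have h := exp_pos (-exp t)
  rcases hε with rfl | rfl <;> simp [ph, abs_of_pos h, this, -exp_lt_one_iff]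

lemma ph_shift {ε : ℝ} (hε : ε = 1 ∨ ε = -1) {p : ℕ} (hp : Odd p) (t : ℝ) :
    ph ε (t + log p) = ph ε t ^ p := by
  have hp0 : (0 : ℝ) < p := by exact_mod_cast hp.pos
  have e : ε ^ p = ε := by
    rcases hε with rfl | rfl
    · simp
    · exact hp.neg_one_pow
  unfold ph
  rw [mul_pow, e, exp_add, exp_log hp0, ← exp_nat_mul]
  congr 2; ring

lemma GG_step {ε : ℝ} (hε : ε = 1 ∨ ε = -1) {n p : ℕ} (hn : 0 < n) (hp : p.Prime) (ho : Odd p)
    (hd : ¬ p ∣ n) : GG (n * p) ε = fun t => GG n ε (t + log p) - GG n ε t := by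
  funext t
  have hp0 : (0 : ℝ) < p := by exact_mod_cast hp.pos
  have h := cyclotomic_expand_eq_cyclotomic_mul hp hd ℝ
  have h1 := congrArg (eval (ph ε t)) h
  have h2 := congrArg (fun q => eval (ph ε t) (derivative q)) h
  simp only [derivative_expand, derivative_mul, eval_mul, eval_add, expand_eval, eval_pow, eval_X,
    eval_natCast] at h1 h2
  have n1 := cyc_ne hn (ph_abs hε t)
  have n2 := cyc_ne (Nat.mul_pos hn hp.pos) (ph_abs hε t)
  unfold GG
  rw [ph_shift hε ho, exp_add, exp_log hp0, h1]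
  have e : ph ε t ^ p = ph ε t ^ (p - 1) * ph ε t := by
    rw [← pow_succ]; congr 1; have := hp.pos; omega
  field_simp
  generalize eval (ph ε t ^ p) (derivative (cyclotomic n ℝ)) = A at h2 ⊢
  rw [e]
  linear_combination (-(ph ε t)) * h2

lemma GG_one (ε t : ℝ) : GG 1 ε t = exp t * ph ε t / (ph ε t - 1) := by
  simp [GG]

lemma exp_q (s : ℝ) (hs : 0 < s) : 1 + s + s ^ 2 / 2 ≤ exp s := quadratic_le_exp_of_nonneg hs.le

lemma K_neg : K 0 (GG 1 (-1)) := by
  have e : GG 1 (-1) = fun t => exp t / (exp (exp t) + 1) := by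
    funext t
    rw [GG_one, ph, exp_neg]
    have := exp_pos (exp t)
    have h2 : -1 * (exp (exp t))⁻¹ - 1 ≠ 0 := by
      have := inv_pos.2 this; linarith
    rw [div_eq_div_iff h2 (by positivity)]
    field_simp
    ring
  rw [e]
  refine ⟨?_, 2, by norm_num, fun t => ?_⟩
  · exact Continuous.div (by fun_prop) (by fun_prop) fun t => by positivity
  · have hs := exp_pos t
    have hq := exp_q _ hs
    have hE := exp_pos (exp t)
    simp only [sub_zero]
    rw [abs_of_pos (by positivity), exp_neg]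
    constructor
    · rw [div_le_iff₀ (by positivity)]; nlinarith
    · rw [div_le_iff₀ (by positivity), mul_assoc, mul_comm (exp t)⁻¹, ← div_eq_mul_inv,
        ← mul_div_assoc, le_div_iff₀ hs]
      nlinarith

lemma K_pos : K (-1) (GG 1 1) := by
  have hp : ∀ t : ℝ, 0 < exp (exp t) - 1 := fun t => by
    have := exp_q _ (exp_pos t); have := exp_pos t; nlinarith
  have e : GG 1 1 = fun t => -(exp t / (exp (exp t) - 1)) := by
    funext t
    rw [GG_one, ph, exp_neg]
    have := exp_pos (exp t)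
    have h1 := hp t
    have h2 : 1 * (exp (exp t))⁻¹ - 1 ≠ 0 := by
      have := ex_lt t; rw [exp_neg] at this; linarith
    have h3 : 1 - exp (exp t) ≠ 0 := by linarith
    field_simp
    ring
  rw [e]
  refine ⟨?_, 2, by norm_num, fun t => ?_⟩
  · exact (Continuous.div (by fun_prop) (by fun_prop) fun t => (hp t).ne').neg
  · have hs := exp_pos t
    have hq := exp_q _ hs
    have h1 := hp t
    have hE := exp_pos (exp t)
    constructor
    · have a1 : exp t / (exp (exp t) - 1) ≤ 1 := by rw [div_le_one h1]; nlinarith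
      have a2 : 1 - exp t ≤ exp t / (exp (exp t) - 1) := by
        rw [le_div_iff₀ h1]
        have b := add_one_le_exp (-exp t)
        have c : exp (-exp t) * exp (exp t) = 1 := by rw [← exp_add]; simp
        nlinarith
      rw [abs_le]; constructor <;> linarith
    · rw [abs_neg, abs_of_pos (by positivity), exp_neg, div_le_iff₀ h1, mul_assoc,
        mul_comm (exp t)⁻¹, ← div_eq_mul_inv, ← mul_div_assoc, le_div_iff₀ hs]
      nlinarith

lemma ndvd {S : Finset ℕ} {p : ℕ} (hp : p.Prime) (hS : ∀ q ∈ S, q.Prime ∧ Odd q) (h : p ∉ S) :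
    ¬ p ∣ ∏ q ∈ S, q := by
  intro hd
  obtain ⟨q, hq, hpq⟩ := (Prime.dvd_finset_prod_iff hp.prime _).1 hd
  exact h (((Nat.prime_dvd_prime_iff_eq hp (hS q hq).1).1 hpq) ▸ hq)

lemma neg_ind (S : Finset ℕ) : (∀ q ∈ S, q.Prime ∧ Odd q) →
    K 0 (GG (∏ q ∈ S, q) (-1)) ∧ Z (GG (∏ q ∈ S, q) (-1)) S.card := by
  induction S using Finset.induction_on with
  | empty => intro _; simpa using ⟨K_neg, Z_zero _⟩
  | insert p S hp ih =>
    intro h
    have hS : ∀ q ∈ S, q.Prime ∧ Odd q := fun q hq => h q (Finset.mem_insert_of_mem hq)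
    have hpp := h p (Finset.mem_insert_self _ _)
    obtain ⟨k, z⟩ := ih hS
    rw [Finset.prod_insert hp, Finset.card_insert_of_notMem hp, mul_comm,
      GG_step (Or.inr rfl) (Finset.prod_pos fun q hq => (hS q hq).1.pos) hpp.1 hpp.2
        (ndvd hpp.1 hS hp)]
    exact ⟨K_step k _, Z_step k z _⟩

lemma pos_ind (S : Finset ℕ) : (∀ q ∈ S, q.Prime ∧ Odd q) → S = ∅ ∨
    (K 0 (GG (∏ q ∈ S, q) 1) ∧ Z (GG (∏ q ∈ S, q) 1) (S.card - 1)) := by
  induction S using Finset.induction_on with
  | empty => intro _; exact Or.inl rfl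
  | insert p S hp ih =>
    intro h
    right
    have hS : ∀ q ∈ S, q.Prime ∧ Odd q := fun q hq => h q (Finset.mem_insert_of_mem hq)
    have hpp := h p (Finset.mem_insert_self _ _)
    rw [Finset.prod_insert hp, Finset.card_insert_of_notMem hp, mul_comm,
      GG_step (Or.inl rfl) (Finset.prod_pos fun q hq => (hS q hq).1.pos) hpp.1 hpp.2
        (ndvd hpp.1 hS hp)]
    by_cases hS0 : S = ∅
    · subst hS0
      simp only [Finset.prod_empty, Finset.card_empty]
      exact ⟨K_step K_pos _, Z_zero _⟩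
    · obtain ⟨k, z⟩ := (ih hS).resolve_left hS0
      have : S.card + 1 - 1 = S.card - 1 + 1 := by
        have := Finset.card_pos.2 (Finset.nonempty_iff_ne_empty.2 hS0); omega
      rw [this]
      exact ⟨K_step k _, Z_step k z _⟩

lemma ph_mono (ε t u : ℝ) : 0 ≤ (-ε) * (t - u) * (ph ε t - ph ε u) := by
  have : (-ε) * (t - u) * (ph ε t - ph ε u) = ε ^ 2 * ((t - u) * (exp (-exp u) - exp (-exp t))) := by
    unfold ph; ring
  rw [this]
  refine mul_nonneg (sq_nonneg _) ?_
  rcases le_total t u with h | h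
  · have : exp (-exp u) ≤ exp (-exp t) := exp_le_exp.2 (neg_le_neg (exp_le_exp.2 h))
    exact mul_nonneg_of_nonpos_of_nonpos (by linarith) (by linarith)
  · have : exp (-exp t) ≤ exp (-exp u) := exp_le_exp.2 (neg_le_neg (exp_le_exp.2 h))
    exact mul_nonneg (by linarith) (by linarith)

open Classical in
lemma main {ε : ℝ} (hε : ε = 1 ∨ ε = -1) {n : ℕ} (hn : 2 < n) (hK : K 0 (GG n ε)) {m : ℕ}
    (hZ : Z (GG n ε) m) :
    m ≤ ((derivative (cyclotomic n ℝ)).roots.filter (fun x => 0 < ε * x ∧ ε * x < 1)).card := by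
  have hε0 : ε ≠ 0 := by rcases hε with rfl | rfl <;> norm_num
  have hε2 : ε * ε = 1 := by rcases hε with rfl | rfl <;> norm_num
  have hQ : derivative (cyclotomic n ℝ) ≠ 0 := by
    intro h
    have := natDegree_eq_zero_of_derivative_eq_zero h
    rw [natDegree_cyclotomic, Nat.totient_eq_zero] at this
    omega
  have hph : ∀ t, ε * ph ε t = exp (-exp t) := fun t => by
    unfold ph; rw [← mul_assoc, hε2, one_mul]
  have h := count (ph ε) (by unfold ph; fun_prop) (by
      intro a b hab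
      have := mul_left_cancel₀ hε0 hab
      exact exp_injective (neg_injective (exp_injective this)))
    (-ε) (neg_ne_zero.2 hε0) (ph_mono ε) _ hQ (GG n ε)
    (fun t => exp t * ph ε t / (cyclotomic n ℝ).eval (ph ε t)) ε (fun t => by
      have h1 := cyclotomic_pos (R := ℝ) hn (ph ε t)
      have h2 : ε * (exp t * ph ε t / (cyclotomic n ℝ).eval (ph ε t))
          = exp t * (ε * ph ε t) / (cyclotomic n ℝ).eval (ph ε t) := by ring
      rw [h2, hph]; positivity) (fun _ => rfl) hK hZ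
  refine h.trans (Multiset.card_le_card (Multiset.monotone_filter_right _ ?_))
  rintro x ⟨t, rfl⟩
  rw [hph]
  exact ⟨exp_pos _, ex_lt t⟩

end Pool.Agent.H.MP_1d6ef7_nt
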